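import Mathlib

/-! Polycyclic groups: the definition (by a series). -/

set_option autoImplicit false

namespace Pool.Agent.H55.AMG

/-- `P` is polycyclic: there is a series `1 = S 0 ≤ S 1 ≤ ... ≤ S k = P` in which every `S i` is
normal in `S (i + 1)` and every factor `S (i + 1) / S i` is cyclic, generated by the coset of
some `t`. -/
def IsPolycyclic (P : Type*) [Group P] : Prop :=
  ∃ (k : ℕ) (S : ℕ → Subgroup P), S 0 = ⊥ ∧ S k = ⊤ ∧ ∀ i < k,
    S i ≤ S (i + 1) ∧ (∀ g ∈ S (i + 1), ∀ x ∈ S i, g * x * g⁻¹ ∈ S i) ∧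
    ∃ t ∈ S (i + 1), ∀ g ∈ S (i + 1), ∃ n : ℤ, g * t ^ n ∈ S i

end Pool.Agent.H55.AMG
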