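import Pool.Agent.H55.AMG.Poly
import Pool.Agent.H2.Am.Main

/-! Amalgams of polycyclic groups over a normal subgroup are linear over the complex numbers. -/

set_option autoImplicit false

namespace Pool.Agent.H55.AMG

open Pool.Agent.H2.Am

/-- the rational functions over the complex numbers embed into the complex numbers -/
theorem exists_embedding : Nonempty (RatFunc ℂ →+* ℂ) := by
  have h1 : Cardinal.mk (RatFunc ℂ) = Cardinal.continuum := by
    rw [IsFractionRing.cardinalMk (Polynomial ℂ) (RatFunc ℂ), Polynomial.cardinalMk_eq_max,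
      Cardinal.mk_complex]
    exact max_eq_left Cardinal.aleph0_le_continuum
  have hC : CharZero (AlgebraicClosure (RatFunc ℂ)) := by
    have hR : CharZero (RatFunc ℂ) :=
      charZero_of_injective_algebraMap (RatFunc.algebraMap_injective ℂ |>.comp
        (Polynomial.C_injective) : Function.Injective ((algebraMap (Polynomial ℂ)
          (RatFunc ℂ)).comp (Polynomial.C)))
    exact charZero_of_injective_algebraMap
      (algebraMap (RatFunc ℂ) (AlgebraicClosure (RatFunc ℂ))).injective
  have h2 : Cardinal.mk (AlgebraicClosure (RatFunc ℂ)) = Cardinal.continuum := by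
    apply le_antisymm
    · refine (Algebra.IsAlgebraic.cardinalMk_le_max (RatFunc ℂ)
        (AlgebraicClosure (RatFunc ℂ))).trans ?_
      rw [h1, max_eq_left Cardinal.aleph0_le_continuum]
    · rw [← h1]
      exact Cardinal.mk_le_of_injective
        (algebraMap (RatFunc ℂ) (AlgebraicClosure (RatFunc ℂ))).injective
  have h3 : Nonempty (AlgebraicClosure (RatFunc ℂ) ≃ ℂ) := by
    rw [← Cardinal.eq, h2, Cardinal.mk_complex]
  obtain ⟨e⟩ := IsAlgClosed.ringEquiv_of_equiv_of_charZero
    (by rw [h2]; exact Cardinal.aleph0_lt_continuum) h3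
  exact ⟨e.toRingHom.comp (algebraMap (RatFunc ℂ) (AlgebraicClosure (RatFunc ℂ)))⟩

theorem gl_map_injective {R S : Type} [Field R] [Field S] (f : R →+* S) (n : ℕ) :
    Function.Injective (Matrix.GeneralLinearGroup.map (n := Fin n) f) := by
  intro a b h
  apply Units.ext
  ext i j
  apply f.injective
  have h1 := congrArg (fun x : Matrix.GeneralLinearGroup (Fin n) S => (x : Matrix _ _ S) i j) h
  exact h1

/-- the two factors as a family -/
def GG (A B : Type) : Fin 2 → Type
  | 0 => A
  | 1 => B

instance instGG (A B : Type) [Group A] [Group B] : ∀ i, Group (GG A B i)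
  | 0 => inferInstanceAs (Group A)
  | 1 => inferInstanceAs (Group B)

/-- the two embeddings as a family -/
def ff {A B C : Type} [Group A] [Group B] [Group C] (α : C →* A) (β : C →* B) :
    ∀ i, C →* GG A B i
  | 0 => α
  | 1 => β

theorem lin0 {A B C : Type} [Group A] [Group B] [Group C]
    (hA : Group.IsSolvable A ∧ AllFG A) (hB : Group.IsSolvable B ∧ AllFG B)
    (α : C →* A) (β : C →* B) (hα : Function.Injective α) (hβ : Function.Injective β)
    (hαn : α.range.Normal) (hβn : β.range.Normal) :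
    ∃ (n : ℕ) (ρ : Monoid.PushoutI (ff α β) →* Matrix.GeneralLinearGroup (Fin n) ℂ),
      Function.Injective ρ := by
  obtain ⟨n, ρ, hρ⟩ := main (GG A B) C (ff α β)
    (fun i => match i with
      | 0 => hA
      | 1 => hB)
    (fun i => match i with
      | 0 => hα
      | 1 => hβ)
    (fun i => match i with
      | 0 => hαn
      | 1 => hβn)
  obtain ⟨f⟩ := exists_embedding
  exact ⟨n, (Matrix.GeneralLinearGroup.map f).comp ρ, (gl_map_injective f n).comp hρ⟩

theorem shrink_props {P : Type*} [Group P] (h : IsPolycyclic P) :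
    ∃ (Q : Type) (_ : Group Q) (_ : P ≃* Q), Group.IsSolvable Q ∧ AllFG Q := by
  have := h.countable
  have hs := h.solvable
  refine ⟨Shrink.{0} P, inferInstance, Shrink.mulEquiv.symm, ?_, ?_⟩
  · exact Group.isSolvable_of_surjective (f := (Shrink.mulEquiv.symm : P ≃* Shrink.{0} P).toMonoidHom)
      (Shrink.mulEquiv.symm : P ≃* Shrink.{0} P).surjective
  · intro S
    have h1 : S = (S.comap (Shrink.mulEquiv.symm : P ≃* Shrink.{0} P).toMonoidHom).map
        (Shrink.mulEquiv.symm : P ≃* Shrink.{0} P).toMonoidHom := by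
      rw [Subgroup.map_comap_eq_self_of_surjective]
      exact (Shrink.mulEquiv.symm : P ≃* Shrink.{0} P).surjective
    rw [h1]
    classical
    obtain ⟨T, hT⟩ := h.fg (S.comap (Shrink.mulEquiv.symm : P ≃* Shrink.{0} P).toMonoidHom)
    exact ⟨T.image (Shrink.mulEquiv.symm : P ≃* Shrink.{0} P).toMonoidHom, by
      rw [Finset.coe_image, ← MonoidHom.map_closure, hT]⟩

theorem range_normal {C C' X Y : Type*} [Group C] [Group C'] [Group X] [Group Y] (γ : C →* X)
    (e : X ≃* Y) (eC : C ≃* C') (hn : γ.range.Normal) :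
    ((e.toMonoidHom.comp γ).comp eC.symm.toMonoidHom).range.Normal := by
  refine ⟨?_⟩
  rintro _ ⟨c, rfl⟩ y
  obtain ⟨d, hd⟩ := hn.conj_mem (γ (eC.symm c)) ⟨_, rfl⟩ (e.symm y)
  refine ⟨eC d, ?_⟩
  change e (γ (eC.symm (eC d))) = y * e (γ (eC.symm c)) * y⁻¹
  rw [eC.symm_apply_apply, hd, map_mul, map_mul, map_inv, e.apply_symm_apply]

theorem lin {A B C : Type*} [Group A] [Group B] [Group C] (hA : IsPolycyclic A)
    (hB : IsPolycyclic B) (α : C →* A) (β : C →* B) (hα : Function.Injective α)
    (hβ : Function.Injective β) (hαn : α.range.Normal) (hβn : β.range.Normal) :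
    ∃ n : ℕ, 1 ≤ n ∧
      ∃ ρ : (Monoid.Coprod A B ⧸ Subgroup.normalClosure
          {x | ∃ c : C, x = Monoid.Coprod.inl (α c) * (Monoid.Coprod.inr (β c))⁻¹}) →*
          Matrix.GeneralLinearGroup (Fin n) ℂ, Function.Injective ρ := by
  obtain ⟨A', _, eA, hA'⟩ := shrink_props hA
  obtain ⟨B', _, eB, hB'⟩ := shrink_props hB
  have hcA := hA.countable
  have hcC : Countable C := hα.countable
  let eC : C ≃* Shrink.{0} C := Shrink.mulEquiv.symm
  let α' : Shrink.{0} C →* A' := (eA.toMonoidHom.comp α).comp eC.symm.toMonoidHom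
  let β' : Shrink.{0} C →* B' := (eB.toMonoidHom.comp β).comp eC.symm.toMonoidHom
  have hα' : Function.Injective α' := eA.injective.comp (hα.comp eC.symm.injective)
  have hβ' : Function.Injective β' := eB.injective.comp (hβ.comp eC.symm.injective)
  obtain ⟨n, ρ, hρ⟩ := lin0 hA' hB' α' β' hα' hβ' 
    (range_normal α eA eC hαn) (range_normal β eB eC hβn)
  set N : Subgroup (Monoid.Coprod A B) := Subgroup.normalClosure
    {x | ∃ c : C, x = Monoid.Coprod.inl (α c) * (Monoid.Coprod.inr (β c))⁻¹} with hN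
  let f0 : Monoid.Coprod A B →* Monoid.PushoutI (ff α' β') :=
    Monoid.Coprod.lift ((Monoid.PushoutI.of (φ := ff α' β') 0).comp eA.toMonoidHom)
      ((Monoid.PushoutI.of (φ := ff α' β') 1).comp eB.toMonoidHom)
  have hf0 : N ≤ f0.ker := by
    rw [hN]
    apply Subgroup.normalClosure_le_normal
    rintro _ ⟨c, rfl⟩
    have h1 : Monoid.PushoutI.of (φ := ff α' β') 0 (ff α' β' 0 (eC c)) =
        Monoid.PushoutI.base (ff α' β') (eC c) := Monoid.PushoutI.of_apply_eq_base _ _ _
    have h2 : Monoid.PushoutI.of (φ := ff α' β') 1 (ff α' β' 1 (eC c)) =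
        Monoid.PushoutI.base (ff α' β') (eC c) := Monoid.PushoutI.of_apply_eq_base _ _ _
    have h3 : ff α' β' 0 (eC c) = eA (α c) := by
      change eA (α (eC.symm (eC c))) = _
      rw [eC.symm_apply_apply]
    have h4 : ff α' β' 1 (eC c) = eB (β c) := by
      change eB (β (eC.symm (eC c))) = _
      rw [eC.symm_apply_apply]
    rw [h3] at h1
    rw [h4] at h2
    change f0 (Monoid.Coprod.inl (α c) * (Monoid.Coprod.inr (β c))⁻¹) = 1
    rw [map_mul, map_inv, Monoid.Coprod.lift_apply_inl, Monoid.Coprod.lift_apply_inr,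
      mul_inv_eq_one]
    exact h1.trans h2.symm
  let f : (Monoid.Coprod A B ⧸ N) →* Monoid.PushoutI (ff α' β') := QuotientGroup.lift N f0 hf0
  let gg : ∀ i, GG A' B' i →* (Monoid.Coprod A B ⧸ N) := fun i => match i with
    | 0 => ((QuotientGroup.mk' N).comp Monoid.Coprod.inl).comp eA.symm.toMonoidHom
    | 1 => ((QuotientGroup.mk' N).comp Monoid.Coprod.inr).comp eB.symm.toMonoidHom
  have hgg : ∀ i, (gg i).comp (ff α' β' i) = (gg 0).comp (ff α' β' 0) := by
    intro i
    match i with
    | 0 => rfl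
    | 1 =>
      ext1 c
      change QuotientGroup.mk (Monoid.Coprod.inr (eB.symm (eB (β (eC.symm c))))) =
        QuotientGroup.mk (Monoid.Coprod.inl (eA.symm (eA (α (eC.symm c)))))
      rw [eB.symm_apply_apply, eA.symm_apply_apply, eq_comm, QuotientGroup.eq_iff_div_mem,
        div_eq_mul_inv]
      exact Subgroup.subset_normalClosure ⟨_, rfl⟩
  let g : Monoid.PushoutI (ff α' β') →* (Monoid.Coprod A B ⧸ N) :=
    Monoid.PushoutI.lift gg ((gg 0).comp (ff α' β' 0)) hgg
  have hg0 : ∀ x : GG A' B' 0, g (Monoid.PushoutI.of (φ := ff α' β') 0 x) = gg 0 x :=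
    fun x => Monoid.PushoutI.lift_of _ _ _ x
  have hg1 : ∀ x : GG A' B' 1, g (Monoid.PushoutI.of (φ := ff α' β') 1 x) = gg 1 x :=
    fun x => Monoid.PushoutI.lift_of _ _ _ x
  have hgf : g.comp f = MonoidHom.id _ := by
    apply QuotientGroup.monoidHom_ext
    apply Monoid.Coprod.hom_ext
    · ext1 a
      change g (f0 (Monoid.Coprod.inl a)) = QuotientGroup.mk (Monoid.Coprod.inl a)
      rw [Monoid.Coprod.lift_apply_inl]
      refine (hg0 (eA a)).trans ?_
      change QuotientGroup.mk (Monoid.Coprod.inl (eA.symm (eA a))) = _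
      rw [eA.symm_apply_apply]
    · ext1 a
      change g (f0 (Monoid.Coprod.inr a)) = QuotientGroup.mk (Monoid.Coprod.inr a)
      rw [Monoid.Coprod.lift_apply_inr]
      refine (hg1 (eB a)).trans ?_
      change QuotientGroup.mk (Monoid.Coprod.inr (eB.symm (eB a))) = _
      rw [eB.symm_apply_apply]
  have hf : Function.Injective f := by
    intro a b hab
    have ha : g (f a) = a := DFunLike.congr_fun hgf a
    have hb : g (f b) = b := DFunLike.congr_fun hgf b
    rw [← ha, ← hb, hab]
  rcases Nat.eq_zero_or_pos n with hn | hn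
  · subst hn
    have hsub : Subsingleton (Monoid.Coprod A B ⧸ N) := (hρ.comp hf).subsingleton
    exact ⟨1, le_rfl, 1, fun a b _ => Subsingleton.elim _ _⟩
  · exact ⟨n, hn, ρ.comp f, hρ.comp hf⟩

end Pool.Agent.H55.AMG
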