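import Mathlib
import Pool.Agent.H55.AMG.Def

/-! Polycyclic groups (defined by a series): solvable, all subgroups finitely generated. -/

set_option autoImplicit false

namespace Pool.Agent.H55.AMG

open scoped commutatorElement

variable {P : Type*} [Group P]

theorem step_comm {A B : Subgroup P} (hn : ∀ g ∈ B, ∀ x ∈ A, g * x * g⁻¹ ∈ A)
    {t : P} (ht : t ∈ B) (hc : ∀ g ∈ B, ∃ n : ℤ, g * t ^ n ∈ A) : ⁅B, B⁆ ≤ A := by
  rw [Subgroup.commutator_le]
  intro g hg h hh
  obtain ⟨n, hn1⟩ := hc g hg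
  obtain ⟨m, hm1⟩ := hc h hh
  -- g = a * t ^ (-n), h = b * t ^ (-m)
  obtain ⟨a, ha, rfl⟩ : ∃ a ∈ A, g = a * t ^ (-n) := ⟨g * t ^ n, hn1, by
    rw [mul_assoc, ← zpow_add, add_neg_cancel, zpow_zero, mul_one]⟩
  obtain ⟨b, hb, rfl⟩ : ∃ b ∈ A, h = b * t ^ (-m) := ⟨h * t ^ m, hm1, by
    rw [mul_assoc, ← zpow_add, add_neg_cancel, zpow_zero, mul_one]⟩
  have hu : t ^ (-n) ∈ B := B.zpow_mem ht _
  have hv : t ^ (-m) ∈ B := B.zpow_mem ht _
  have huv : t ^ (-n) * t ^ (-m) = t ^ (-m) * t ^ (-n) := by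
    rw [← zpow_add, ← zpow_add, add_comm]
  generalize t ^ (-n) = u at hu huv
  generalize t ^ (-m) = v at hv huv
  have e : ⁅a * u, b * v⁆ = a * (u * b * u⁻¹) * ((v * a⁻¹ * v⁻¹)) * b⁻¹ := by
    rw [commutatorElement_def]
    have h1 : u * v * u⁻¹ * v⁻¹ = 1 := by
      rw [huv]
      group
    have h2 : v * u⁻¹ = u⁻¹ * v := by
      rw [eq_inv_mul_iff_mul_eq, ← mul_assoc, huv, mul_assoc, mul_inv_cancel, mul_one]
    calc a * u * (b * v) * (a * u)⁻¹ * (b * v)⁻¹
        = a * u * b * (v * u⁻¹) * a⁻¹ * v⁻¹ * b⁻¹ := by group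
      _ = a * u * b * (u⁻¹ * v) * a⁻¹ * v⁻¹ * b⁻¹ := by rw [h2]
      _ = a * (u * b * u⁻¹) * ((v * a⁻¹ * v⁻¹)) * b⁻¹ := by group
  rw [e]
  exact A.mul_mem (A.mul_mem (A.mul_mem ha (hn u hu b hb)) (hn v hv _ (A.inv_mem ha)))
    (A.inv_mem hb)

theorem step_fg {A B : Subgroup P} (hn : ∀ g ∈ B, ∀ x ∈ A, g * x * g⁻¹ ∈ A)
    {t : P} (ht : t ∈ B) (hc : ∀ g ∈ B, ∃ n : ℤ, g * t ^ n ∈ A)
    (hA : ∀ U : Subgroup P, U ≤ A → U.FG) (U : Subgroup P) (hU : U ≤ B) : U.FG := by
  classical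
  let Z : AddSubgroup ℤ :=
    { carrier := {n | ∃ g ∈ U, g * t ^ n ∈ A}
      zero_mem' := ⟨1, U.one_mem, by rw [zpow_zero, mul_one]; exact A.one_mem⟩
      add_mem' := by
        rintro n m ⟨g, hg, h1⟩ ⟨h, hh, h2⟩
        refine ⟨h * g, U.mul_mem hh hg, ?_⟩
        have h3 : t ^ (-m) * (g * t ^ n) * (t ^ (-m))⁻¹ ∈ A := hn _ (B.zpow_mem ht _) _ h1
        have h4 : h * g * t ^ (n + m) =
            (h * t ^ m) * (t ^ (-m) * (g * t ^ n) * (t ^ (-m))⁻¹) := by
          rw [zpow_add, zpow_neg]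
          group
        rw [h4]
        exact A.mul_mem h2 h3
      neg_mem' := by
        rintro n ⟨g, hg, h1⟩
        refine ⟨g⁻¹, U.inv_mem hg, ?_⟩
        have h4 : g⁻¹ * t ^ (-n) = t ^ n * (g * t ^ n)⁻¹ * (t ^ n)⁻¹ := by
          rw [zpow_neg]
          group
        rw [h4]
        exact hn _ (B.zpow_mem ht _) _ (A.inv_mem h1) }
  obtain ⟨d, hd⟩ := Int.subgroup_cyclic Z
  have hdZ : d ∈ Z := by
    rw [hd]
    exact AddSubgroup.subset_closure (Set.mem_singleton d)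
  obtain ⟨u, hu, hu1⟩ := hdZ
  have hNn : (A.subgroupOf B).Normal := ⟨fun x hx g => hn g g.2 x hx⟩
  let q := QuotientGroup.mk' (A.subgroupOf B)
  have hq : ∀ x : B, q x = 1 ↔ (x : P) ∈ A := by
    intro x
    rw [← MonoidHom.mem_ker, QuotientGroup.ker_mk', Subgroup.mem_subgroupOf]
  have hle : U = (U ⊓ A) ⊔ Subgroup.closure {u} := by
    apply le_antisymm
    · intro g hg
      obtain ⟨n, hn1⟩ := hc g (hU hg)
      have hnZ : n ∈ Z := ⟨g, hg, hn1⟩
      rw [hd, AddSubgroup.mem_closure_singleton] at hnZ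
      obtain ⟨k, hk⟩ := hnZ
      have h1 : q ⟨u, hU hu⟩ * q ⟨t, ht⟩ ^ d = 1 := by
        rw [← map_zpow, ← map_mul, hq]
        exact hu1
      have h2 : q ⟨g, hU hg⟩ * q ⟨t, ht⟩ ^ n = 1 := by
        rw [← map_zpow, ← map_mul, hq]
        exact hn1
      have h3 : q (⟨g, hU hg⟩ * ⟨u, hU hu⟩ ^ (-k)) = 1 := by
        rw [map_mul, map_zpow, eq_inv_of_mul_eq_one_left h1, eq_inv_of_mul_eq_one_left h2, ← hk,
          ← zpow_neg, ← zpow_neg, ← zpow_mul, ← zpow_add, smul_eq_mul]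
        have : -(k * d) + -d * -k = 0 := by ring
        rw [this, zpow_zero]
      rw [hq] at h3
      have h4 : g * u ^ (-k) ∈ A := h3
      have h5 : g = (g * u ^ (-k)) * u ^ k := by
        rw [mul_assoc, ← zpow_add, neg_add_cancel, zpow_zero, mul_one]
      rw [h5]
      refine Subgroup.mul_mem _ (Subgroup.mem_sup_left ⟨?_, h4⟩) (Subgroup.mem_sup_right ?_)
      · exact U.mul_mem hg (U.zpow_mem hu _)
      · exact Subgroup.zpow_mem _ (Subgroup.subset_closure (Set.mem_singleton u)) _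
    · refine sup_le inf_le_left ?_
      rw [Subgroup.closure_le, Set.singleton_subset_iff]
      exact hu
  rw [hle]
  exact (hA _ inf_le_right).sup ⟨{u}, by rw [Finset.coe_singleton]⟩

/-- every subgroup of a polycyclic group is finitely generated -/
theorem IsPolycyclic.fg (h : IsPolycyclic P) (U : Subgroup P) : U.FG := by
  obtain ⟨k, S, h0, hk, hS⟩ := h
  have key : ∀ i ≤ k, ∀ U : Subgroup P, U ≤ S i → U.FG := by
    intro i
    induction i with
    | zero =>
      intro _ U hU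
      rw [h0, le_bot_iff] at hU
      rw [hU]
      exact Subgroup.FG.bot
    | succ i ih =>
      intro hi U hU
      obtain ⟨-, hn, t, ht, hc⟩ := hS i (by omega)
      exact step_fg hn ht hc (ih (by omega)) U hU
  exact key k le_rfl U (by rw [hk]; exact le_top)

/-- polycyclic groups are solvable -/
theorem IsPolycyclic.solvable (h : IsPolycyclic P) : Group.IsSolvable P := by
  obtain ⟨k, S, h0, hk, hS⟩ := h
  have key : ∀ j ≤ k, derivedSeries P j ≤ S (k - j) := by
    intro j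
    induction j with
    | zero =>
      intro _
      rw [Nat.sub_zero, hk]
      exact le_top
    | succ j ih =>
      intro hj
      obtain ⟨-, hn, t, ht, hc⟩ := hS (k - (j + 1)) (by omega)
      have e : k - (j + 1) + 1 = k - j := by omega
      rw [e] at hn ht hc
      rw [derivedSeries_succ]
      exact (Subgroup.commutator_mono (ih (by omega)) (ih (by omega))).trans (step_comm hn ht hc)
  refine ⟨⟨k, ?_⟩⟩
  rw [eq_bot_iff, ← h0]
  have := key k le_rfl
  rwa [Nat.sub_self] at this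

/-- polycyclic groups are countable -/
theorem IsPolycyclic.countable (h : IsPolycyclic P) : Countable P := by
  have h1 : Group.FG P := Group.fg_def.2 (h.fg ⊤)
  obtain ⟨α, _, f, hf⟩ := Group.fg_iff_exists_freeGroup_hom_surjective_finite.mp h1
  have : Countable α := Finite.to_countable
  exact hf.countable

end Pool.Agent.H55.AMG
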